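import Pool.Agent.H26.ES.Targets
import Pool.Agent.H22.LVP.SR6

/-!
# Row SRP of est_modules: the data of the stars (helper79)
-/

set_option autoImplicit false

open Finset MeasureTheory

namespace Pool.Agent.H79.EST

open Pool.Agent.H24.CL Pool.Agent.H24.LV Pool.Agent.H26.ES Pool.Agent.H22.LVP

theorem srp_sA_meas {k : ℕ} (S : Finset ℕ) (A0 : ℕ → Set (X k)) (E2 : ℕ → ℕ → Set (X k))
    (hA0 : ∀ p ∈ S, MeasurableSet (A0 p)) (hE2 : ∀ p ∈ S, ∀ q ∈ S, p ≠ q → MeasurableSet (E2 p q)) :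
    ∀ p ∈ S, MeasurableSet (sA S A0 E2 p) := by
  intro p hp
  apply (hA0 p hp).diff
  apply Finset.measurableSet_biUnion
  intro q hq
  rw [Finset.mem_erase] at hq
  exact hE2 p hp q hq.2 (Ne.symm hq.1)

theorem srp_data (k : ℕ) (hk : 3 ≤ k) (hGM : L_GM) (hGMP : T_GMP) (S : Finset ℕ) (V : Set (X k))
    (A0 : ℕ → Set (X k)) (E2 : ℕ → ℕ → Set (X k)) (P' ν m τ Ω : ℝ) (hP' : 1 ≤ P') (hν : 1 ≤ ν)
    (hm : 1 ≤ m) (hτ : 0 < τ) (hτ1 : τ ≤ 1) (hΩ : 0 ≤ Ω)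
    (hpr : ∀ p ∈ S, p.Prime ∧ k < p ∧ P' ≤ (p : ℝ) ∧ (p : ℝ) ≤ 2 * P') (hV : MeasurableSet V)
    (hA0 : ∀ p ∈ S, MeasurableSet (A0 p)) (hE2 : ∀ p ∈ S, ∀ q ∈ S, p ≠ q → MeasurableSet (E2 p q))
    (hAc : ∀ p ∈ S, Cnt (H k p k) (A0 p) m) (hAc1 : ∀ p ∈ S, Cnt (H k p 1) (A0 p) ν)
    (hE2c : ∀ p ∈ S, ∀ q ∈ S, p ≠ q → Cnt (H k p k ⊔ H k q k) (A0 p \ E2 p q) m)
    (hms : ∀ p ∈ S, (p : ℝ) ^ KN k * volume.real (A0 p) ≤ Ω) :
    SDatP k S V (fun p => GdL k p (sA S A0 E2 p) V τ)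
      (fun p y => Uns k p (GdL k p (A0 p) V τ) y ∩ GdL k p (sA S A0 E2 p) V τ) P' m τ Ω := by
  have hk1 : 1 ≤ k := by omega
  have hAm := srp_sA_meas S A0 E2 hA0 hE2
  have hsub : ∀ p, sA S A0 E2 p ⊆ A0 p := fun p => Set.sdiff_subset
  have hcnt : ∀ p ∈ S, Cnt (H k p k) (sA S A0 E2 p) m := fun p hp =>
    sr_Cnt_mono (hAc p hp) (hsub p) (le_refl _)
  have gm := fun p (hp : p ∈ S) => hGM k p hk1 (hpr p hp).1.one_lt.le (sA S A0 E2 p) V τ m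
    (hAm p hp) hV hτ hm (hcnt p hp)
  have gmp := fun p (hp : p ∈ S) => hGMP k p hk1 (hpr p hp).1 (hpr p hp).2.1 (A0 p) V τ ν m
    (hA0 p hp) hV hτ hν hm (hAc p hp) (hAc1 p hp)
  refine ⟨hk, hP', hm, hτ, hτ1, hΩ, hpr, hV, fun p hp => (gm p hp).1,
    fun p hp y => ((gmp p hp).1 y).inter (gm p hp).1, fun p hp y => Set.inter_subset_right,
    fun p hp => (gm p hp).2.1,
    fun p hp y a ha h hh => ⟨(gmp p hp).2.2.1 y a ha.1 h hh, (gm p hp).2.1 a ha.2 h hh⟩,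
    fun p hp y hy a ha a' ha' e => (gmp p hp).2.2.2.1 y hy a ha.1 a' ha'.1 e,
    fun p hp a ha => ha.2, ?_, ?_⟩
  · intro p hp q hq hpq
    apply (gm p hp).2.2.1 (H k p k ⊔ H k q k) (le_trans (sr_H_mono k p hk1) le_sup_left) m
    refine sr_Cnt_mono (hE2c p hp q hq hpq) ?_ (le_refl _)
    intro a ha
    refine ⟨ha.1, fun h => ha.2 ?_⟩
    rw [Set.mem_iUnion₂]
    exact ⟨q, Finset.mem_erase.mpr ⟨Ne.symm hpq, hq⟩, h⟩
  · intro p hp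
    have h1 := (gm p hp).2.2.2.1
    have h2 : volume.real (sA S A0 E2 p) ≤ volume.real (A0 p) :=
      measureReal_mono (hsub p) (measure_ne_top _ _)
    have h3 : (p : ℝ) ^ KN k = (p : ℝ) ^ (KN k - k) * (p : ℝ) ^ k := by
      rw [← pow_add, Nat.sub_add_cancel (sr_KN_le k hk1)]
    refine le_trans ?_ (hms p hp)
    rw [h3, mul_assoc]
    apply mul_le_mul_of_nonneg_left _ (by positivity)
    exact le_trans h1 (mul_le_mul_of_nonneg_left h2 (by positivity))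

theorem srp_lost (k : ℕ) (hk : 3 ≤ k) (hGM : L_GM) (hGMP : T_GMP) (hLO : T_LOP) (S : Finset ℕ)
    (V : Set (X k)) (A0 : ℕ → Set (X k)) (E2 : ℕ → ℕ → Set (X k)) (ν m τ Ω lo : ℝ) (hν : 1 ≤ ν)
    (hm : 1 ≤ m) (hτ : 0 < τ) (hΩ : 0 ≤ Ω) (hlo : 0 ≤ lo)
    (hpr : ∀ p ∈ S, p.Prime ∧ k < p) (hV : MeasurableSet V)
    (hA0 : ∀ p ∈ S, MeasurableSet (A0 p)) (hE2 : ∀ p ∈ S, ∀ q ∈ S, p ≠ q → MeasurableSet (E2 p q))
    (hAc : ∀ p ∈ S, Cnt (H k p k) (A0 p) m) (hAc1 : ∀ p ∈ S, Cnt (H k p 1) (A0 p) ν)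
    (hE2v : ∀ p ∈ S, ∀ q ∈ S, p ≠ q → (p : ℝ) ^ KN k * volume.real (E2 p q) ≤ lo * Ω) :
    mass k (DS S) (fun b x => StarP S V (fun p y => Uns k p (GdL k p (A0 p) V τ) y) b x) ≤
      mass k (DS S) (fun b x => StarP S V
        (fun p y => Uns k p (GdL k p (A0 p) V τ) y ∩ GdL k p (sA S A0 E2 p) V τ) b x) +
        (S.card : ℝ) ^ 2 * (lo * Ω) := by
  have hk1 : 1 ≤ k := by omega
  have hAm := srp_sA_meas S A0 E2 hA0 hE2
  have hsub : ∀ p, sA S A0 E2 p ⊆ A0 p := fun p => Set.sdiff_subset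
  have hcnt : ∀ p ∈ S, Cnt (H k p k) (sA S A0 E2 p) m := fun p hp =>
    sr_Cnt_mono (hAc p hp) (hsub p) (le_refl _)
  have gm := fun p (hp : p ∈ S) => hGM k p hk1 (hpr p hp).1.one_lt.le (sA S A0 E2 p) V τ m
    (hAm p hp) hV hτ hm (hcnt p hp)
  have gm0 := fun p (hp : p ∈ S) => hGM k p hk1 (hpr p hp).1.one_lt.le (A0 p) V τ m
    (hA0 p hp) hV hτ hm (hAc p hp)
  have gmp := fun p (hp : p ∈ S) => hGMP k p hk1 (hpr p hp).1 (hpr p hp).2 (A0 p) V τ ν m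
    (hA0 p hp) hV hτ hν hm (hAc p hp) (hAc1 p hp)
  have h1 := hLO k S V (fun p => GdL k p (A0 p) V τ) (fun p => GdL k p (sA S A0 E2 p) V τ)
    (fun p y => Uns k p (GdL k p (A0 p) V τ) y) hk (fun p hp => (hpr p hp).1) hV
    (fun p hp y => (gmp p hp).1 y) (fun p hp => (gm0 p hp).1) (fun p hp => (gm p hp).1)
    (fun p hp y => (gmp p hp).2.2.1 y) (fun p hp => (gm p hp).2.1)
    (fun p hp => (gmp p hp).2.2.2.1) (fun p hp y => (gmp p hp).2.1 y)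
  refine le_trans h1 (add_le_add (le_refl _) ?_)
  have h2 : ∀ p ∈ S, (p : ℝ) ^ (KN k - k) * volume.real
      (GdL k p (A0 p) V τ \ GdL k p (sA S A0 E2 p) V τ) ≤ (S.card : ℝ) * (lo * Ω) := by
    intro p hp
    have h3 := (gm0 p hp).2.2.2.2.2 (sA S A0 E2 p) (hsub p) (hAm p hp)
    have h4 : A0 p \ sA S A0 E2 p ⊆ ⋃ q ∈ S.erase p, E2 p q := by
      intro a ha
      by_contra h
      exact ha.2 ⟨ha.1, h⟩
    have h5 : volume.real (A0 p \ sA S A0 E2 p) ≤ ∑ q ∈ S.erase p, volume.real (E2 p q) :=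
      le_trans (measureReal_mono h4 (measure_ne_top _ _)) (measureReal_biUnion_finset_le _ _)
    have h6 : (p : ℝ) ^ KN k = (p : ℝ) ^ (KN k - k) * (p : ℝ) ^ k := by
      rw [← pow_add, Nat.sub_add_cancel (sr_KN_le k hk1)]
    calc (p : ℝ) ^ (KN k - k) * volume.real (GdL k p (A0 p) V τ \ GdL k p (sA S A0 E2 p) V τ) ≤
          (p : ℝ) ^ (KN k - k) * ((p : ℝ) ^ k * volume.real (A0 p \ sA S A0 E2 p)) :=
          mul_le_mul_of_nonneg_left h3 (by positivity)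
      _ = (p : ℝ) ^ KN k * volume.real (A0 p \ sA S A0 E2 p) := by rw [h6]; ring
      _ ≤ (p : ℝ) ^ KN k * ∑ q ∈ S.erase p, volume.real (E2 p q) :=
          mul_le_mul_of_nonneg_left h5 (by positivity)
      _ = ∑ q ∈ S.erase p, (p : ℝ) ^ KN k * volume.real (E2 p q) := by rw [Finset.mul_sum]
      _ ≤ ∑ _q ∈ S.erase p, lo * Ω := by
          apply Finset.sum_le_sum
          intro q hq
          rw [Finset.mem_erase] at hq
          exact hE2v p hp q hq.2 (Ne.symm hq.1)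
      _ = ((S.erase p).card : ℝ) * (lo * Ω) := by rw [Finset.sum_const, nsmul_eq_mul]
      _ ≤ (S.card : ℝ) * (lo * Ω) := by
          apply mul_le_mul_of_nonneg_right _ (mul_nonneg hlo hΩ)
          exact_mod_cast Finset.card_le_card (Finset.erase_subset _ _)
  calc ∑ p ∈ S, (p : ℝ) ^ (KN k - k) * volume.real
        (GdL k p (A0 p) V τ \ GdL k p (sA S A0 E2 p) V τ) ≤ ∑ _p ∈ S, (S.card : ℝ) * (lo * Ω) :=
        Finset.sum_le_sum h2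
    _ = (S.card : ℝ) ^ 2 * (lo * Ω) := by rw [Finset.sum_const, nsmul_eq_mul]; ring

/-- the points covered by the rich stars -/
theorem srp_cover (k : ℕ) (CI : ℝ) (hCV : T_CVP)
    (hRI : ∀ (n : ℕ) (S : Finset ℕ) (V : Set (X k)) (Ge : ℕ → Set (X k))
    (Gd : ℕ → ℕ → Set (X k)) (P m τ Ω kap kap' : ℝ), S.card = n →
    SDatP k S V Ge Gd P m τ Ω → 0 < kap → kap ≤ 1 → 0 < kap' → kap' ≤ 1 →
    mass k (DS S) (fun b x => StarP S V Gd b x ∧ ¬ Rich S V (kap' ^ n * τ) b x) ≤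
      2 ^ n * (n * (CI * m ^ 3 / (kap ^ 3 * P)) + kap' + n * kap) * Ω)
    (n : ℕ) (S : Finset ℕ) (V : Set (X k)) (Ge : ℕ → Set (X k)) (Gd : ℕ → ℕ → Set (X k))
    (P' m τ Ω kap kap' R κ' : ℝ)
    (hS : S.card = n) (hD : SDatP k S V Ge Gd P' m τ Ω) (hkap : 0 < kap) (hkap1 : kap ≤ 1)
    (hkap' : 0 < kap') (hkap'1 : kap' ≤ 1)
    (hR : 2 ^ n * (n * (CI * m ^ 3 / (kap ^ 3 * P')) + kap' + n * kap) ≤ R / 8)
    (hm : 3 / 8 * R * Ω ≤ mass k (DS S) (fun b x => StarP S V Gd b x))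
    (hκ : κ' ≤ kap' ^ n * τ) :
    R / 4 * Ω ≤ volume.real {w : X k | ∃ (b : X k) (x : ℕ), x < DS S ∧ phi (DS S) x b = w ∧
        Rich S V κ' b x} := by
  have h1 := hRI n S V Ge Gd P' m τ Ω kap kap' hS hD hkap hkap1 hkap' hkap'1
  have h2 := hCV k S V Ge Gd P' m τ Ω (kap' ^ n * τ) hD
  have h3 := sr_mass_split k (DS S) (fun b x => StarP S V Gd b x)
    (fun b x => Rich S V (kap' ^ n * τ) b x)
  have h4 := mul_le_mul_of_nonneg_right hR hD.hΩ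
  have h5 : volume.real {w : X k | ∃ (b : X k) (x : ℕ), x < DS S ∧ phi (DS S) x b = w ∧
        Rich S V (kap' ^ n * τ) b x} ≤ volume.real {w : X k | ∃ (b : X k) (x : ℕ), x < DS S ∧
        phi (DS S) x b = w ∧ Rich S V κ' b x} := by
    apply measureReal_mono _ (measure_ne_top _ _)
    rintro w ⟨b, x, hx, hw, hr⟩
    exact ⟨b, x, hx, hw, fun S' hS' => le_trans hκ (hr S' hS')⟩
  linarith

end Pool.Agent.H79.EST
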