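import Pool.Agent.H65.EN.All
import Pool.Agent.H31.PL.WEX
import Pool.Agent.H79.PL.Star
import Pool.Agent.H79.PL.FI2
import Pool.Agent.H79.PL.JJ2
import Pool.Agent.H79.PL.AS2

/-!
# The critical mean value with the power 2/3 of the logarithm: the closed theorems (helper79)
-/

set_option autoImplicit false

namespace Pool.Agent.H79.EST

open Pool.Agent.H24.LVP Pool.Agent.H24.CL Pool.Agent.H79.PL

theorem eWEX : Pool.Agent.H31.PL.T_WEX :=
  Pool.Agent.H31.PL.pf_WEX aCO awDL awTF awEQ awRU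

theorem eSRP : Pool.Agent.H26.ES.T_SRP := sSRP

theorem eFI2 : Pool.Agent.H26.ES.T_FI2 :=
  Pool.Agent.H79.PL.pf_FI2 aWT aFIN eSRP eWEX Pool.Agent.H65.EN.eMX

theorem eJJ2 : Pool.Agent.H26.ES.T_JJ2 := Pool.Agent.H79.PL.pf_JJ2 eFI2 aLY

theorem eAS2 : T_AS2 := Pool.Agent.H79.PL.pf_AS2 eFI2 aAS

end Pool.Agent.H79.EST
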