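import Mathlib

/-!
# Row SRP of est_modules: the numbers (helper79)
-/

set_option autoImplicit false

namespace Pool.Agent.H79.EST

theorem le_exp_log (c g : ℝ) (hc : 1 ≤ c) (hg : 1 ≤ g) : c ≤ Real.exp (Real.log c * g) := by
  have h1 : 0 ≤ Real.log c := Real.log_nonneg hc
  calc c = Real.exp (Real.log c) := (Real.exp_log (by linarith)).symm
    _ ≤ Real.exp (Real.log c * g) := Real.exp_le_exp.mpr (le_mul_of_one_le_right h1 hg)

theorem le_exp_self (y : ℝ) : y ≤ Real.exp y := by
  have := Real.add_one_le_exp y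
  linarith

theorem two_pow_le (n : ℕ) : (2 : ℝ) ^ n ≤ Real.exp n := by
  have h1 : (2 : ℝ) ≤ Real.exp 1 := by
    have := Real.add_one_le_exp (1 : ℝ)
    linarith
  calc (2 : ℝ) ^ n ≤ Real.exp 1 ^ n := pow_le_pow_left₀ (by norm_num) h1 n
    _ = Real.exp n := by rw [← Real.exp_nat_mul]; simp

theorem le_exp_four : (24 : ℝ) ≤ Real.exp 4 := by
  have h1 : (2.7 : ℝ) ≤ Real.exp 1 := by
    have := Real.exp_one_gt_d9
    linarith
  calc (24 : ℝ) ≤ 2.7 ^ 4 := by norm_num
    _ ≤ Real.exp 1 ^ 4 := pow_le_pow_left₀ (by norm_num) h1 4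
    _ = Real.exp 4 := by rw [← Real.exp_nat_mul]; norm_num

theorem num (a ds d ε x H C C' CI G P' Cr Bc g ρ τ : ℝ) (n : ℕ)
    (hC : 1 ≤ C) (hC' : 1 ≤ C') (hCI : 1 ≤ CI) (hG : 1 ≤ G) (hH : 0 ≤ H) (hn : 1 ≤ n) (hd : 0 < d)
    (hCr : Cr = C' + Real.log (C' * G)) (hBc : Bc = 6 + Cr + Real.log CI + C + Real.log C)
    (hg : g = (n : ℝ) ^ 2 * (H + 1)) (hρ : ρ = Real.exp (-C' * H) / (C' * G))
    (hτ : τ = Real.exp (-C * H) / C)
    (b1 : Bc * g ≤ a * x / 40) (b2 : Bc * g ≤ a * ds * x / 2) (b3 : Bc * g ≤ a * d * x / 2)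
    (b4 : Bc * g ≤ ε * x) (hP' : Real.exp (a * x / 2) ≤ P') :
    (0 < ρ ∧ ρ ≤ 1) ∧ (0 < τ ∧ τ ≤ 1) ∧
    (∀ q : ℝ, Real.exp (a * x / 4) ≤ q → 2 * (n : ℝ) ^ 2 ≤ ρ ^ n * q) ∧
    ((n : ℝ) ^ 2 * Real.exp (-(a * ds * x / 2)) ≤ ρ ^ n / 8) ∧
    (∃ kap kap' : ℝ, 0 < kap ∧ kap ≤ 1 ∧ 0 < kap' ∧ kap' ≤ 1 ∧
      2 ^ n * ((n : ℝ) * (CI * (P' ^ (1 / 50 : ℝ)) ^ 3 / (kap ^ 3 * P')) + kap' + n * kap) ≤
        ρ ^ n / 8 ∧ Real.exp (-ε * x) ≤ kap' ^ n * τ) ∧
    Real.exp (-ε * x) ≤ ρ ^ n / 4 * 24 ∧
    (C' * (2 * Real.exp (-(a * x / 8))) ≤ Real.exp (-H)) ∧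
    (∀ p : ℝ, Real.exp (a * x / 2) ≤ p → C' * p ^ (-d) ≤ Real.exp (-C' * H)) := by
  have hC'0 : 0 < C' := by linarith
  have hC0 : 0 < C := by linarith
  have hCI0 : 0 < CI := by linarith
  have hG0 : 0 < G := by linarith
  have hCG : 1 ≤ C' * G := one_le_mul_of_one_le_of_one_le hC' hG
  have hCG0 : 0 < C' * G := by linarith
  have hl1 : 0 ≤ Real.log (C' * G) := Real.log_nonneg hCG
  have hl2 : 0 ≤ Real.log CI := Real.log_nonneg hCI
  have hl3 : 0 ≤ Real.log C := Real.log_nonneg hC
  have hl4 : Real.log C' ≤ Real.log (C' * G) :=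
    Real.log_le_log hC'0 (le_mul_of_one_le_right hC'0.le hG)
  have hl5 : 0 ≤ Real.log C' := Real.log_nonneg hC'
  have hCr0 : 0 ≤ Cr := by rw [hCr]; linarith
  have hn1 : (1 : ℝ) ≤ n := by exact_mod_cast hn
  have hn0 : (0 : ℝ) < n := by linarith
  have hH1 : 1 ≤ H + 1 := by linarith
  have hnn : (n : ℝ) ≤ (n : ℝ) ^ 2 := by nlinarith
  have hnH : (n : ℝ) * (H + 1) ≤ g := by
    rw [hg]
    exact mul_le_mul_of_nonneg_right hnn (by linarith)
  have hn2g : (n : ℝ) ^ 2 ≤ g := by
    rw [hg]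
    exact le_mul_of_one_le_right (by positivity) hH1
  have hng : (n : ℝ) ≤ g := hnn.trans hn2g
  have hg1 : 1 ≤ g := hn1.trans hng
  have hHg : H + 1 ≤ g := by
    refine le_trans ?_ hnH
    exact le_mul_of_one_le_left (by linarith) hn1
  have hax : 0 ≤ a * x := by
    have : 0 ≤ Bc * g := by
      apply mul_nonneg _ (by linarith)
      rw [hBc]
      linarith
    linarith
  -- the density of good lines
  have hρ0 : 0 < ρ := by rw [hρ]; positivity
  have hρ1 : ρ ≤ 1 := by
    rw [hρ, div_le_one hCG0]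
    refine le_trans (Real.exp_le_one_iff.mpr ?_) hCG
    nlinarith
  have hτ0 : 0 < τ := by rw [hτ]; positivity
  have hτ1 : τ ≤ 1 := by
    rw [hτ, div_le_one hC0]
    refine le_trans (Real.exp_le_one_iff.mpr ?_) hC
    nlinarith
  have hρlo : Real.exp (-(Cr * (H + 1))) ≤ ρ := by
    rw [hρ, le_div_iff₀ hCG0]
    calc Real.exp (-(Cr * (H + 1))) * (C' * G) =
          Real.exp (-(Cr * (H + 1))) * Real.exp (Real.log (C' * G)) := by
          rw [Real.exp_log hCG0]
      _ = Real.exp (-(Cr * (H + 1)) + Real.log (C' * G)) := by rw [Real.exp_add]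
      _ ≤ Real.exp (-C' * H) := by
          apply Real.exp_le_exp.mpr
          rw [hCr]
          nlinarith [mul_nonneg hl1 hH]
  have hρn : Real.exp (-(Cr * (n * (H + 1)))) ≤ ρ ^ n := by
    calc Real.exp (-(Cr * (n * (H + 1)))) = Real.exp (-(Cr * (H + 1))) ^ n := by
          rw [← Real.exp_nat_mul]; congr 1; ring
      _ ≤ ρ ^ n := pow_le_pow_left₀ (Real.exp_pos _).le hρlo n
  have hρg : Real.exp (-(Cr * g)) ≤ ρ ^ n := by
    refine le_trans (Real.exp_le_exp.mpr ?_) hρn
    have := mul_le_mul_of_nonneg_left hnH hCr0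
    linarith
  have hρn0 : 0 < ρ ^ n := by positivity
  have hρn1 : ρ ^ n ≤ 1 := pow_le_one₀ hρ0.le hρ1
  have h24 : (24 : ℝ) ≤ Real.exp (4 * g) := by
    refine le_trans le_exp_four (Real.exp_le_exp.mpr ?_)
    linarith
  have h2n : (2 : ℝ) ^ n ≤ Real.exp g := (two_pow_le n).trans (Real.exp_le_exp.mpr hng)
  have hne : (n : ℝ) ≤ Real.exp g := hng.trans (le_exp_self g)
  have hn2e : (n : ℝ) ^ 2 ≤ Real.exp g := hn2g.trans (le_exp_self g)
  have hCIe := le_exp_log CI g hCI hg1
  have hCe := le_exp_log C g hC hg1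
  have hC'e := le_exp_log C' g hC' hg1
  refine ⟨⟨hρ0, hρ1⟩, ⟨hτ0, hτ1⟩, ?_, ?_, ?_, ?_, ?_, ?_⟩
  · intro q hq
    have h1 : 2 * (n : ℝ) ^ 2 ≤ Real.exp (4 * g) * Real.exp g :=
      mul_le_mul (by linarith) hn2e (by positivity) (Real.exp_pos _).le
    calc 2 * (n : ℝ) ^ 2 ≤ Real.exp (4 * g) * Real.exp g := h1
      _ = Real.exp (5 * g) := by rw [← Real.exp_add]; congr 1; ring
      _ ≤ Real.exp (-(Cr * g) + a * x / 4) := by
          apply Real.exp_le_exp.mpr
          have : (5 + Cr) * g ≤ Bc * g := by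
            apply mul_le_mul_of_nonneg_right _ (by linarith)
            rw [hBc]; linarith
          linarith
      _ = Real.exp (-(Cr * g)) * Real.exp (a * x / 4) := Real.exp_add _ _
      _ ≤ ρ ^ n * q := mul_le_mul hρg hq (Real.exp_pos _).le hρn0.le
  · rw [le_div_iff₀ (by norm_num)]
    have h1 : (n : ℝ) ^ 2 * 8 ≤ Real.exp g * Real.exp (4 * g) :=
      mul_le_mul hn2e (by linarith) (by norm_num) (Real.exp_pos _).le
    calc (n : ℝ) ^ 2 * Real.exp (-(a * ds * x / 2)) * 8 =
          ((n : ℝ) ^ 2 * 8) * Real.exp (-(a * ds * x / 2)) := by ring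
      _ ≤ (Real.exp g * Real.exp (4 * g)) * Real.exp (-(a * ds * x / 2)) :=
          mul_le_mul_of_nonneg_right h1 (Real.exp_pos _).le
      _ = Real.exp (5 * g - a * ds * x / 2) := by
          rw [← Real.exp_add, ← Real.exp_add]; congr 1; ring
      _ ≤ Real.exp (-(Cr * g)) := by
          apply Real.exp_le_exp.mpr
          have : (5 + Cr) * g ≤ Bc * g := by
            apply mul_le_mul_of_nonneg_right _ (by linarith)
            rw [hBc]; linarith
          linarith
      _ ≤ ρ ^ n := hρg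
  · have hP1 : 1 ≤ P' := by
      refine le_trans ?_ hP'
      exact Real.one_le_exp (by linarith)
    have hP0 : 0 < P' := by linarith
    set kap : ℝ := P' ^ (-(1 / 20 : ℝ)) with hkap
    set kap' : ℝ := ρ ^ n / (24 * 2 ^ n) with hkap'
    have hkap0 : 0 < kap := Real.rpow_pos_of_pos hP0 _
    have hkap1 : kap ≤ 1 := Real.rpow_le_one_of_one_le_of_nonpos hP1 (by norm_num)
    have h2n1 : (1 : ℝ) ≤ 2 ^ n := one_le_pow₀ (by norm_num)
    have hkap'0 : 0 < kap' := by positivity
    have hkap'1 : kap' ≤ 1 := by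
      rw [hkap', div_le_one (by positivity)]
      linarith
    have hkape : kap ≤ Real.exp (-(a * x / 40)) := by
      calc kap ≤ (Real.exp (a * x / 2)) ^ (-(1 / 20 : ℝ)) :=
            Real.rpow_le_rpow_of_nonpos (Real.exp_pos _) hP' (by norm_num)
        _ = Real.exp (-(a * x / 40)) := by
            rw [← Real.exp_mul]; congr 1; ring
    have hfrac : (P' ^ (1 / 50 : ℝ)) ^ 3 / (kap ^ 3 * P') ≤ kap := by
      rw [div_le_iff₀ (by positivity)]
      have e1 : kap * (kap ^ 3 * P') = P' ^ (4 / 5 : ℝ) := by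
        calc kap * (kap ^ 3 * P') = kap ^ 4 * P' := by ring
          _ = P' ^ (-(1 / 20 : ℝ) * (4 : ℕ)) * P' ^ (1 : ℝ) := by
              rw [Real.rpow_mul_natCast hP0.le, Real.rpow_one]
          _ = P' ^ (4 / 5 : ℝ) := by
              rw [← Real.rpow_add hP0]
              norm_num
      have e2 : (P' ^ (1 / 50 : ℝ)) ^ 3 = P' ^ (3 / 50 : ℝ) := by
        rw [← Real.rpow_mul_natCast hP0.le]
        norm_num
      rw [e1, e2]
      exact Real.rpow_le_rpow_of_exponent_le hP1 (by norm_num)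
    have hbase : 2 ^ n * ((n : ℝ) * (CI * kap)) ≤ ρ ^ n / 24 := by
      rw [le_div_iff₀ (by norm_num)]
      calc 2 ^ n * ((n : ℝ) * (CI * kap)) * 24 = ((2 ^ n * (n : ℝ)) * CI) * 24 * kap := by ring
        _ ≤ ((Real.exp g * Real.exp g) * Real.exp (Real.log CI * g)) * Real.exp (4 * g) *
            Real.exp (-(a * x / 40)) := by
            apply mul_le_mul _ hkape hkap0.le (by positivity)
            apply mul_le_mul _ h24 (by norm_num) (by positivity)
            apply mul_le_mul _ hCIe hCI0.le (by positivity)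
            exact mul_le_mul h2n hne hn0.le (Real.exp_pos _).le
        _ = Real.exp ((6 + Real.log CI) * g - a * x / 40) := by
            rw [← Real.exp_add, ← Real.exp_add, ← Real.exp_add, ← Real.exp_add]
            congr 1; ring
        _ ≤ Real.exp (-(Cr * g)) := by
            apply Real.exp_le_exp.mpr
            have : (6 + Real.log CI + Cr) * g ≤ Bc * g := by
              apply mul_le_mul_of_nonneg_right _ (by linarith)
              rw [hBc]; linarith
            linarith
        _ ≤ ρ ^ n := hρg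
    refine ⟨kap, kap', hkap0, hkap1, hkap'0, hkap'1, ?_, ?_⟩
    · have t1 : 2 ^ n * ((n : ℝ) * (CI * (P' ^ (1 / 50 : ℝ)) ^ 3 / (kap ^ 3 * P'))) ≤
          ρ ^ n / 24 := by
        refine le_trans ?_ hbase
        apply mul_le_mul_of_nonneg_left _ (by positivity)
        apply mul_le_mul_of_nonneg_left _ hn0.le
        rw [mul_div_assoc]
        exact mul_le_mul_of_nonneg_left hfrac hCI0.le
      have t2 : 2 ^ n * ((n : ℝ) * kap) ≤ ρ ^ n / 24 := by
        refine le_trans ?_ hbase
        apply mul_le_mul_of_nonneg_left _ (by positivity)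
        apply mul_le_mul_of_nonneg_left _ hn0.le
        exact le_mul_of_one_le_left hkap0.le hCI
      have t3 : 2 ^ n * kap' = ρ ^ n / 24 := by
        rw [hkap']
        field_simp
      calc 2 ^ n * ((n : ℝ) * (CI * (P' ^ (1 / 50 : ℝ)) ^ 3 / (kap ^ 3 * P')) + kap' + n * kap) =
            2 ^ n * ((n : ℝ) * (CI * (P' ^ (1 / 50 : ℝ)) ^ 3 / (kap ^ 3 * P'))) + 2 ^ n * kap' +
              2 ^ n * (n * kap) := by ring
        _ ≤ ρ ^ n / 24 + ρ ^ n / 24 + ρ ^ n / 24 := by linarith
        _ = ρ ^ n / 8 := by ring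
    · have t4 : Real.exp (-((Cr + 5) * (n * (H + 1)))) ≤ kap' := by
        rw [hkap', le_div_iff₀ (by positivity)]
        have hn1H : (1 : ℝ) ≤ n * (H + 1) := one_le_mul_of_one_le_of_one_le hn1 hH1
        have hnnH : (n : ℝ) ≤ n * (H + 1) := le_mul_of_one_le_right hn0.le hH1
        calc Real.exp (-((Cr + 5) * (n * (H + 1)))) * (24 * 2 ^ n) ≤
              Real.exp (-((Cr + 5) * (n * (H + 1)))) * (Real.exp 4 * Real.exp n) := by
              apply mul_le_mul_of_nonneg_left _ (Real.exp_pos _).le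
              exact mul_le_mul le_exp_four (two_pow_le n) (by positivity) (Real.exp_pos _).le
          _ = Real.exp (-((Cr + 5) * (n * (H + 1))) + 4 + n) := by
              rw [Real.exp_add, Real.exp_add]; ring
          _ ≤ Real.exp (-(Cr * (n * (H + 1)))) := by
              apply Real.exp_le_exp.mpr
              nlinarith
          _ ≤ ρ ^ n := hρn
      have t5 : Real.exp (-((Cr + 5) * g)) ≤ kap' ^ n := by
        calc Real.exp (-((Cr + 5) * g)) = Real.exp (-((Cr + 5) * (n * (H + 1)))) ^ n := by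
              rw [← Real.exp_nat_mul, hg]; congr 1; ring
          _ ≤ kap' ^ n := pow_le_pow_left₀ (Real.exp_pos _).le t4 n
      have t6 : Real.exp (-((C + Real.log C) * g)) ≤ τ := by
        rw [hτ, le_div_iff₀ hC0]
        calc Real.exp (-((C + Real.log C) * g)) * C ≤
              Real.exp (-((C + Real.log C) * g)) * Real.exp (Real.log C * g) :=
              mul_le_mul_of_nonneg_left hCe (Real.exp_pos _).le
          _ = Real.exp (-(C * g)) := by rw [← Real.exp_add]; congr 1; ring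
          _ ≤ Real.exp (-C * H) := by
              apply Real.exp_le_exp.mpr
              nlinarith
      calc Real.exp (-ε * x) ≤ Real.exp (-(Bc * g)) := Real.exp_le_exp.mpr (by linarith)
        _ ≤ Real.exp (-((Cr + 5) * g) + -((C + Real.log C) * g)) := by
            apply Real.exp_le_exp.mpr
            have : (Cr + 5 + (C + Real.log C)) * g ≤ Bc * g := by
              apply mul_le_mul_of_nonneg_right _ (by linarith)
              rw [hBc]; linarith
            linarith
        _ = Real.exp (-((Cr + 5) * g)) * Real.exp (-((C + Real.log C) * g)) := Real.exp_add _ _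
        _ ≤ kap' ^ n * τ := mul_le_mul t5 t6 (Real.exp_pos _).le (by positivity)
  · calc Real.exp (-ε * x) ≤ Real.exp (-(Cr * g)) := by
          apply Real.exp_le_exp.mpr
          have : Cr * g ≤ Bc * g := by
            apply mul_le_mul_of_nonneg_right _ (by linarith)
            rw [hBc]; linarith
          linarith
      _ ≤ ρ ^ n := hρg
      _ ≤ ρ ^ n / 4 * 24 := by linarith
  · calc C' * (2 * Real.exp (-(a * x / 8))) ≤
          Real.exp (Real.log C' * g) * (Real.exp (4 * g) * Real.exp (-(a * x / 8))) := by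
          apply mul_le_mul hC'e _ (by positivity) (Real.exp_pos _).le
          apply mul_le_mul_of_nonneg_right _ (Real.exp_pos _).le
          linarith
      _ = Real.exp ((Real.log C' + 4) * g - a * x / 8) := by
          rw [← Real.exp_add, ← Real.exp_add]; congr 1; ring
      _ ≤ Real.exp (-H) := by
          apply Real.exp_le_exp.mpr
          have : (Real.log C' + 4 + 1) * g ≤ Bc * g := by
            apply mul_le_mul_of_nonneg_right _ (by linarith)
            rw [hBc, hCr]; linarith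
          nlinarith
  · intro p hp
    have h1 : p ^ (-d) ≤ Real.exp (-(a * d * x / 2)) := by
      calc p ^ (-d) ≤ (Real.exp (a * x / 2)) ^ (-d) :=
            Real.rpow_le_rpow_of_nonpos (Real.exp_pos _) hp (by linarith)
        _ = Real.exp (-(a * d * x / 2)) := by rw [← Real.exp_mul]; congr 1; ring
    calc C' * p ^ (-d) ≤ Real.exp (Real.log C' * g) * Real.exp (-(a * d * x / 2)) :=
          mul_le_mul hC'e h1 (Real.rpow_nonneg (le_trans (Real.exp_pos _).le hp) _)
            (Real.exp_pos _).le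
      _ = Real.exp (Real.log C' * g - a * d * x / 2) := by
          rw [← Real.exp_add]; congr 1
      _ ≤ Real.exp (-C' * H) := by
          apply Real.exp_le_exp.mpr
          have h2 : (Real.log C' + C') * g ≤ Bc * g := by
            apply mul_le_mul_of_nonneg_right _ (by linarith)
            rw [hBc, hCr]; linarith
          have h3 : C' * H ≤ C' * g := mul_le_mul_of_nonneg_left (by linarith) hC'0.le
          linarith

end Pool.Agent.H79.EST
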